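import Mathlib

namespace Pool.Agent.Results.MP_390221_co.Yes

open Finset Classical

def o (p q u : ℝ × ℝ) : ℝ := (q.1 - p.1) * (u.2 - p.2) - (q.2 - p.2) * (u.1 - p.1)

lemma col {p q u : ℝ × ℝ} (h : p ≠ q) (ho : o p q u = 0) : Collinear ℝ {p, q, u} := by
  rw [collinear_iff_of_mem (p₀ := p) (by simp)]
  refine ⟨q - p, ?_⟩
  have hr : ∃ r : ℝ, u = r • (q - p) +ᵥ p := by
    unfold o at ho
    by_cases h1 : q.1 - p.1 = 0
    · have h2 : q.2 - p.2 ≠ 0 := fun h2 => h (Prod.ext (by linarith) (by linarith))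
      refine ⟨(u.2 - p.2) / (q.2 - p.2), Prod.ext ?_ ?_⟩
      · rw [h1] at ho
        have : u.1 - p.1 = 0 := by
          have : (q.2 - p.2) * (u.1 - p.1) = 0 := by linarith
          exact (mul_eq_zero.1 this).resolve_left h2
        simp [h1]; linarith
      · simp; field_simp; ring
    · refine ⟨(u.1 - p.1) / (q.1 - p.1), Prod.ext ?_ ?_⟩
      · simp; field_simp; ring
      · simp; field_simp; linarith
  intro x hx
  simp only [Set.mem_insert_iff, Set.mem_singleton_iff] at hx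
  rcases hx with rfl | rfl | rfl
  · exact ⟨0, by simp⟩
  · exact ⟨1, by simp⟩
  · exact hr

lemma psi (m x : ℕ) :
    2 * ∑ t ∈ range m, ((t - x : ℕ) : ℤ) = ((m - x : ℕ) : ℤ) * (((m - x : ℕ) : ℤ) - 1) := by
  induction m with
  | zero => simp
  | succ m ih =>
    rw [sum_range_succ, mul_add, ih]
    rcases le_or_gt x m with h | h
    · rw [show m + 1 - x = (m - x) + 1 by omega]; push_cast; ring
    · rw [show m + 1 - x = 0 by omega, show m - x = 0 by omega]; simp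

lemma consec (s : ℤ) : 0 ≤ s * (s + 1) := by
  rcases le_or_gt 0 s with h | h <;> nlinarith

lemma key (m x y : ℕ) : (m : ℤ) * (m - 1) ≤ 2 * (x * y) + 2 * ∑ t ∈ range m, ((t - x : ℕ) : ℤ) +
    2 * ∑ t ∈ range m, ((t - y : ℕ) : ℤ) := by
  rw [psi, psi]
  have x0 : (0 : ℤ) ≤ x := by positivity
  have y0 : (0 : ℤ) ≤ y := by positivity
  have m0 : (0 : ℤ) ≤ m := by positivity
  rcases le_total x m with h | h <;> rcases le_total y m with k | k
  · rw [Nat.cast_sub h, Nat.cast_sub k]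
    nlinarith [consec (x + y - m)]
  · rw [Nat.cast_sub h, Nat.sub_eq_zero_of_le k]
    have : (m : ℤ) ≤ y := by exact_mod_cast k
    push_cast
    nlinarith [mul_nonneg x0 (sub_nonneg.2 this)]
  · rw [Nat.cast_sub k, Nat.sub_eq_zero_of_le h]
    have : (m : ℤ) ≤ x := by exact_mod_cast h
    push_cast
    nlinarith [mul_nonneg y0 (sub_nonneg.2 this)]
  · rw [Nat.sub_eq_zero_of_le k, Nat.sub_eq_zero_of_le h]
    have a : (m : ℤ) ≤ x := by exact_mod_cast h
    have b : (m : ℤ) ≤ y := by exact_mod_cast k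
    push_cast
    nlinarith [mul_le_mul a b m0 x0]

variable {n : ℕ} (P : Fin n → ℝ × ℝ) (G : SimpleGraph (Fin n))

noncomputable def Lf (u v : Fin n) : Finset (Fin n) :=
  (G.neighborFinset u).filter fun a => 0 < o (P u) (P v) (P a)

lemma landau (gen : ∀ i j l, i ≠ j → i ≠ l → j ≠ l → o (P i) (P j) (P l) ≠ 0) (u : Fin n) (t : ℕ) :
    2 * ∑ v ∈ G.neighborFinset u, ((t - (Lf P G u v).card : ℕ) : ℤ) ≤ t * (t + 1) := by
  set S := (G.neighborFinset u).filter fun v => (Lf P G u v).card < t with hS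
  have e1 : ∑ v ∈ G.neighborFinset u, ((t - (Lf P G u v).card : ℕ) : ℤ) =
      ∑ v ∈ S, ((t : ℤ) - (Lf P G u v).card) := by
    rw [hS, sum_filter]
    refine sum_congr rfl fun v _ => ?_
    split_ifs with h
    · rw [Nat.cast_sub h.le]
    · rw [Nat.sub_eq_zero_of_le (not_lt.1 h)]; simp
  set x : Fin n → Fin n → ℤ := fun v a => if 0 < o (P u) (P v) (P a) then 1 else 0 with hx
  have e2 : ∀ v, ∑ a ∈ S, x v a ≤ (Lf P G u v).card := by
    intro v
    have : ((Lf P G u v).card : ℤ) = ∑ a ∈ G.neighborFinset u, x v a := by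
      unfold Lf; rw [card_filter]; push_cast; rfl
    rw [this]
    exact sum_le_sum_of_subset_of_nonneg (filter_subset _ _) fun a _ _ => by
      simp only [hx]; split_ifs <;> norm_num
  have e3 : ∀ v ∈ S, ∀ a ∈ S, 1 - (if v = a then 1 else 0) ≤ x v a + x a v := by
    intro v hv a ha
    have hv' : u ≠ v := by simpa using ((G.mem_neighborFinset _ _).1 (mem_filter.1 hv).1).ne
    have ha' : u ≠ a := by simpa using ((G.mem_neighborFinset _ _).1 (mem_filter.1 ha).1).ne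
    have e : o (P u) (P a) (P v) = - o (P u) (P v) (P a) := by unfold o; ring
    by_cases h : v = a
    · subst h; simp only [hx]; split_ifs <;> norm_num
    · simp only [hx, if_neg h, e]
      rcases lt_or_gt_of_ne (gen u v a hv' ha' h) with k | k
      · rw [if_neg k.not_gt, if_pos (by linarith)]; norm_num
      · rw [if_pos k, if_neg (by linarith)]; norm_num
  have e4 := sum_le_sum fun v hv => sum_le_sum fun a ha => e3 v hv a ha
  have e5 : ∑ v ∈ S, ∑ a ∈ S, (if v = a then (1 : ℤ) else 0) = S.card := by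
    rw [sum_congr rfl (g := fun _ => 1) fun q hq => by simp [hq]]; simp
  simp only [sum_sub_distrib, sum_add_distrib, e5, sum_const, nsmul_eq_mul, mul_one] at e4
  rw [sum_comm (f := fun v a => x a v)] at e4
  have e6 := sum_le_sum fun v (_ : v ∈ S) => e2 v
  rw [e1, sum_sub_distrib, sum_const, nsmul_eq_mul]
  nlinarith [consec (t - S.card)]

lemma cube (m : ℕ) : 3 * ∑ t ∈ range m, (t : ℤ) * (t + 1) = (m + 1) * m * (m - 1) := by
  induction m with
  | zero => simp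
  | succ m ih => rw [sum_range_succ, mul_add, ih]; push_cast; ring

lemma lower (gen : ∀ i j l, i ≠ j → i ≠ l → j ≠ l → o (P i) (P j) (P l) ≠ 0) (m : ℕ) :
    3 * (G.edgeFinset.card : ℤ) * (m * (m - 1)) - n * ((m + 1) * m * (m - 1)) ≤
      3 * ∑ u, ∑ v ∈ G.neighborFinset u, ((Lf P G u v).card : ℤ) * (Lf P G v u).card := by
  set ψ : Fin n → Fin n → ℤ := fun u v => ∑ t ∈ range m, ((t - (Lf P G u v).card : ℕ) : ℤ) with hψ
  have h1 := sum_le_sum fun u (_ : u ∈ univ) => sum_le_sum fun v (_ : v ∈ G.neighborFinset u) =>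
    key m (Lf P G u v).card (Lf P G v u).card
  have h2 : ∑ u, ∑ v ∈ G.neighborFinset u, ψ v u = ∑ u, ∑ v ∈ G.neighborFinset u, ψ u v := by
    refine sum_comm' fun u v => ?_
    simp [G.adj_comm]
  have h3 : ∀ u, 6 * ∑ v ∈ G.neighborFinset u, ψ u v ≤ (m + 1) * m * (m - 1) := by
    intro u
    have := sum_le_sum fun t (_ : t ∈ range m) => landau P G gen u t
    rw [← mul_sum, sum_comm] at this
    have c := cube m
    simp only [hψ]
    linarith
  have h4 := sum_le_sum fun u (_ : u ∈ univ) => h3 u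
  have h5 : ∑ u, (G.degree u : ℤ) = 2 * G.edgeFinset.card := by
    exact_mod_cast G.sum_degrees_eq_twice_card_edges
  change ∑ u, ∑ v ∈ G.neighborFinset u, (m : ℤ) * (m - 1) ≤ ∑ u, ∑ v ∈ G.neighborFinset u,
    (2 * (((Lf P G u v).card : ℤ) * (Lf P G v u).card) + 2 * ψ u v + 2 * ψ v u) at h1
  simp only [sum_add_distrib, ← mul_sum, h2, sum_const, SimpleGraph.card_neighborFinset_eq_degree,
    nsmul_eq_mul, ← sum_mul, h5] at h1
  simp only [← mul_sum, sum_const, card_univ, Fintype.card_fin, nsmul_eq_mul] at h4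
  linarith

lemma disj {p q a b : ℝ × ℝ} (hpq : p ≠ q) (h1 : 0 < o p q a) (h2 : 0 < o q p b) :
    Disjoint (segment ℝ p a) (segment ℝ q b) := by
  rw [Set.disjoint_left]
  rintro z ⟨s, t, hs, ht, hst, rfl⟩ ⟨s', t', hs', ht', hst', e⟩
  have e1 := congrArg Prod.fst e
  have e2 := congrArg Prod.snd e
  simp only [Prod.fst_add, Prod.snd_add, Prod.smul_fst, Prod.smul_snd, smul_eq_mul] at e1 e2
  obtain rfl : s = 1 - t := by linarith
  obtain rfl : s' = 1 - t' := by linarith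
  have k : t * o p q a + t' * o q p b = 0 := by
    unfold o
    linear_combination (q.2 - p.2) * e1 - (q.1 - p.1) * e2
  have k1 : t = 0 := by nlinarith [mul_nonneg ht h1.le, mul_nonneg ht' h2.le]
  have k2 : t' = 0 := by nlinarith [mul_nonneg ht h1.le, mul_nonneg ht' h2.le]
  subst k1 k2
  exact hpq (Prod.ext (by linarith) (by linarith))

/-- A geometric graph with `n` vertices, `e` edges, `2e ≥ n` and average degree `d = 2e/n` has at
least `(n/2) * C(d,3)` unordered pairs of disjoint edges. -/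
theorem result (n : ℕ) (P : Fin n → ℝ × ℝ) (hP : Function.Injective P)
    (gen : ∀ i j l, i ≠ j → i ≠ l → j ≠ l → ¬ Collinear ℝ {P i, P j, P l})
    (G : SimpleGraph (Fin n)) (he : n ≤ 2 * G.edgeSet.ncard) (d : ℝ)
    (hd : d = 2 * (G.edgeSet.ncard : ℝ) / n) :
    (n : ℝ) / 2 * (d * (d - 1) * (d - 2) / 6) ≤
      ({z : Sym2 (Sym2 (Fin n)) | ∃ u a v b, z = s(s(u, a), s(v, b)) ∧ G.Adj u a ∧ G.Adj v b ∧
        Disjoint (segment ℝ (P u) (P a)) (segment ℝ (P v) (P b))}.ncard : ℝ) := by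
  have gen' : ∀ i j l, i ≠ j → i ≠ l → j ≠ l → o (P i) (P j) (P l) ≠ 0 :=
    fun i j l h1 h2 h3 h => gen i j l h1 h2 h3 (col (hP.ne h1) h)
  rcases Nat.eq_zero_or_pos n with rfl | hn
  · simp
  set DJ := {z : Sym2 (Sym2 (Fin n)) | ∃ u a v b, z = s(s(u, a), s(v, b)) ∧ G.Adj u a ∧ G.Adj v b ∧
    Disjoint (segment ℝ (P u) (P a)) (segment ℝ (P v) (P b))} with hDJ
  set Q : Finset ((Fin n × Fin n) × Fin n × Fin n) := univ.filter fun x =>
    G.Adj x.1.1 x.1.2 ∧ x.2.1 ∈ Lf P G x.1.1 x.1.2 ∧ x.2.2 ∈ Lf P G x.1.2 x.1.1 with hQ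
  have q1 : (Q.card : ℤ) =
      ∑ u, ∑ v ∈ G.neighborFinset u, ((Lf P G u v).card : ℤ) * (Lf P G v u).card := by
    rw [hQ, card_filter, Fintype.sum_prod_type, Fintype.sum_prod_type]
    push_cast
    refine sum_congr rfl fun u _ => ?_
    rw [SimpleGraph.neighborFinset_eq_filter, sum_filter]
    refine sum_congr rfl fun v _ => ?_
    by_cases h : G.Adj u v
    · simp only [h, true_and, if_true]
      rw [← Nat.cast_mul, ← card_product, sum_boole]
      congr 2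
      ext x; simp
    · simp [h]
  have mem : ∀ x ∈ Q, G.Adj x.1.1 x.1.2 ∧ (G.Adj x.1.1 x.2.1 ∧ 0 < o (P x.1.1) (P x.1.2) (P x.2.1)) ∧
      G.Adj x.1.2 x.2.2 ∧ 0 < o (P x.1.2) (P x.1.1) (P x.2.2) := by
    intro x hx
    simpa [hQ, Lf] using hx
  have q2 : Q.card ≤ 2 * (Set.toFinite DJ).toFinset.card := by
    refine card_le_mul_card_image_of_maps_to (f := fun x => s(s(x.1.1, x.2.1), s(x.1.2, x.2.2)))
      (fun x hx => ?_) 2 fun z _ => ?_
    · obtain ⟨h1, ⟨h2, h3⟩, h4, h5⟩ := mem x hx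
      rw [Set.Finite.mem_toFinset]
      exact ⟨_, _, _, _, rfl, h2, h4, disj (hP.ne h1.ne) h3 h5⟩
    · rcases (Q.filter fun x => s(s(x.1.1, x.2.1), s(x.1.2, x.2.2)) = z).eq_empty_or_nonempty with
        h | ⟨⟨⟨u, v⟩, a, b⟩, hx⟩
      · rw [h]; simp
      obtain ⟨hx', rfl⟩ := mem_filter.1 hx
      obtain ⟨-, ⟨-, h3⟩, -, h5⟩ := mem _ hx'
      refine (card_le_card (t := {((u, v), a, b), ((v, u), b, a)}) ?_).trans card_le_two
      rintro ⟨⟨u', v'⟩, a', b'⟩ hy
      obtain ⟨hy', e⟩ := mem_filter.1 hy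
      obtain ⟨-, ⟨-, k3⟩, -, k5⟩ := mem _ hy'
      simp only [Sym2.eq_iff] at e
      simp only at h3 h5 k3 k5
      unfold o at h3 h5 k3 k5
      rcases e with ⟨⟨rfl, rfl⟩ | ⟨rfl, rfl⟩, ⟨rfl, rfl⟩ | ⟨rfl, rfl⟩⟩ |
        ⟨⟨rfl, rfl⟩ | ⟨rfl, rfl⟩, ⟨rfl, rfl⟩ | ⟨rfl, rfl⟩⟩ <;>
      first
      | (simp; done)
      | (exfalso; nlinarith)
  have q3 : (Set.toFinite DJ).toFinset.card = DJ.ncard := (Set.ncard_eq_toFinset_card DJ).symm
  have q4 : G.edgeSet.ncard = G.edgeFinset.card := by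
    rw [← SimpleGraph.coe_edgeFinset, Set.ncard_coe_finset]
  have n0 : (0 : ℝ) < n := by exact_mod_cast hn
  have e0 : (G.edgeFinset.card : ℝ) = n * d / 2 := by rw [hd, q4]; field_simp
  have d1 : 1 ≤ d := by
    rw [hd, le_div_iff₀ n0, one_mul]; exact_mod_cast he
  have l := lower P G gen' ⌊d⌋₊
  rw [← q1] at l
  have l' : 3 * (G.edgeFinset.card : ℝ) * (⌊d⌋₊ * (⌊d⌋₊ - 1)) - n * ((⌊d⌋₊ + 1) * ⌊d⌋₊ * (⌊d⌋₊ - 1)) ≤
      3 * Q.card := by exact_mod_cast l
  have q5 : (Q.card : ℝ) ≤ 2 * DJ.ncard := by rw [← q3]; exact_mod_cast q2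
  have f1 := Nat.floor_le (by linarith : 0 ≤ d)
  have f2 := Nat.lt_floor_add_one d
  have f3 : (1 : ℝ) ≤ ⌊d⌋₊ := by exact_mod_cast Nat.le_floor (by simpa using d1 : ((1 : ℕ) : ℝ) ≤ d)
  have f4 := mul_nonneg n0.le (mul_nonneg (mul_nonneg (sub_nonneg.2 f1) (sub_nonneg.2 f2.le))
    (show 0 ≤ d + 2 * ⌊d⌋₊ - 2 by linarith))
  rw [e0] at l'
  nlinarith

end Pool.Agent.Results.MP_390221_co.Yes
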